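import Pool.Agent.H21.AP.Expl
import Pool.Agent.H21.AP.Sharp

/-!
# The largest family with pairwise arithmetic-progression intersections, for all N ≥ 10^130

Let `F` be a family of subsets of `[N]` such that any two different members meet in a non-empty
arithmetic progression. For every `N ≥ 10^130` the largest size of such a family is exactly
`t(N) = C(N,2) + 1 + ⌊(N-1)/4⌋`.

Outline of the upper bound (helper21, helper3, helper33, helper35, helper82).
* Members of size about `s` that are not progressions are `O(N^2 (log N)/s)`: count pairs of
  consecutive elements `p, p+d`; for fixed `(p,d)` the elements `z` of the members with `hull(p,p+d,z)`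
  not in the member are different, and for fixed `d` and `p ≢ p'` the two groups restrict each other.
* Progressions with the same difference that meet pairwise have a common element; so there are less than
  `0.42 N^2` progressions in `F`, and if `|F| > C(N,2)` there are many small members that are not
  progressions. Then all small members contain one element `x`. Let `b` be the number of small members
  that are not progressions. Each owns a pair `{y,z}`: it is the only member that contains `x, y, z`,
  since the progression generated by `x, y, z` is not contained in it.
* Up to `o(N^2)`: (H) `b ≤ (N^2 - (N-|A|)^2)/2` for every member `A` that misses `x`;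
  (I) `b + 2 I ≤ N^2/2`, `I` the number of intervals in `F`;
  (Z) `b + 1.056 (I + T) ≤ N^2/2`, `T` the number of other progressions through `x`. For (I) and (Z) a
  small member is assigned an owned pair next to a common element `m` of the intervals; many pairs are
  not used; for (Z) one counts pairs `{y,z}` with `gcd(y-x,z-x) = d` for each `d`.
* If a progression of difference `d ≥ 2` misses `x`, then (H), (I), (Z) and the counts of progressions
  give `|F| < C(N,2)`. Otherwise (Z) gives that `F` has `o(N^2)` progressions.
* Then by (H) a member that misses `x` contains all but `N/3000` elements of `[N]`. The members that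
  miss `x` meet pairwise in long intervals, and a Sauer-Shelah argument and a count of the progressions
  through `x` without the pairs near both ends of `[N]` give the exact bound. (For families with a common
  element the exact bound is the library theorem `CommonElement`.)
-/

set_option autoImplicit false

namespace Pool.Agent.Results.MP_7a6934_co.ExactForLargeN

open Finset

/-- a non-empty finite arithmetic progression of integers -/
def IsAP (P : Finset ℤ) : Prop :=
  ∃ (a d : ℤ) (l : ℕ), 1 ≤ d ∧ 1 ≤ l ∧ P = (Finset.range l).image (fun i : ℕ => a + i * d)

/-- the admissible families of the problem -/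
def Admissible (N : ℕ) (F : Finset (Finset ℤ)) : Prop :=
  (∀ A ∈ F, A ⊆ Icc 1 (N : ℤ)) ∧ ∀ A ∈ F, ∀ B ∈ F, A ≠ B → IsAP (A ∩ B)

/-- For every `N ≥ 10^130`: `t(N) = C(N,2) + 1 + ⌊(N-1)/4⌋`, and some largest family has a common
element. -/
theorem result (N : ℕ) (hN : 10 ^ 130 ≤ N) :
    IsGreatest {t : ℕ | ∃ F : Finset (Finset ℤ), Admissible N F ∧ F.card = t}
      (N.choose 2 + 1 + (N - 1) / 4) ∧
    ∃ F : Finset (Finset ℤ), Admissible N F ∧ F.card = N.choose 2 + 1 + (N - 1) / 4 ∧
      ∃ x : ℤ, ∀ A ∈ F, x ∈ A := by
  classical
  obtain ⟨F, hsub, hint, hx, -, hcard⟩ := Pool.Agent.H21.AP.sharp_few N (le_trans (by norm_num) hN)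
  refine ⟨⟨⟨F, ⟨hsub, hint⟩, hcard⟩, ?_⟩, F, ⟨hsub, hint⟩, hcard, hx⟩
  rintro t ⟨F, ⟨hsub, hint⟩, rfl⟩
  exact Pool.Agent.H21.AP.main_full_expl N hN F hsub hint

end Pool.Agent.Results.MP_7a6934_co.ExactForLargeN
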